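import Pool.Agent.Helper647.FU.Fin
import Pool.Agent.Helper647.FU.MAFinal

/-!
# Compact sets of continuous functions with values in a space with countably many separating
real functions

Let `X` be a `T₁` space of countable extent and let `M` be a space whose points are separated by
countably many continuous real functions (for example a separable metrizable space). Under the
proper forcing axiom every compact set of continuous functions from `X` to `M`, with the topology
of pointwise convergence, is Fréchet-Urysohn, and the closures of its countable subsets are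
metrizable.
-/

set_option autoImplicit false

open Set Topology Cardinal

namespace Pool.Agent.U517.FU

open Pool.Agent.Helper647.FU

/-- The points of `M` are separated by countably many continuous real functions. -/
def CountablySeparated (M : Type) [TopologicalSpace M] : Prop :=
  ∃ φ : ℕ → M → ℝ, (∀ n, Continuous (φ n)) ∧ ∀ a b : M, (∀ n, φ n a = φ n b) → a = b

theorem extent_prod {X : Type} [TopologicalSpace X] (hX : CountableExtent X) :
    CountableExtent (X × ℕ) := by
  intro D hD hd
  have h1 : ∀ n : ℕ, {x : X | (x, n) ∈ D}.Countable := by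
    intro n
    have hc : Continuous fun x : X => (x, n) := by fun_prop
    refine hX _ (hD.preimage hc) ?_
    have hi : Function.Injective (fun x : {x : X | (x, n) ∈ D} => (⟨(x.1, n), x.2⟩ : D)) := by
      intro x y h
      have := congrArg (fun z : D => z.1.1) h
      exact Subtype.ext this
    exact DiscreteTopology.of_continuous_injective
      (Continuous.subtype_mk (hc.comp continuous_subtype_val) _) hi
  refine (countable_iUnion fun n => (h1 n).image fun x => (x, n)).mono ?_
  rintro ⟨x, n⟩ h
  exact mem_iUnion.2 ⟨n, x, h, rfl⟩

section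

variable {X M : Type} [TopologicalSpace X] [TopologicalSpace M] (φ : ℕ → M → ℝ)

/-- The functions on `X × ℕ` attached to the functions from `X` to `M`. -/
def Phi' (f : X → M) : X × ℕ → ℝ := fun z => φ z.2 (f z.1)

theorem phi_cont (hφ : ∀ n, Continuous (φ n)) : Continuous (Phi' φ : (X → M) → (X × ℕ → ℝ)) :=
  continuous_pi fun z => (hφ z.2).comp (continuous_apply z.1)

theorem phi_inj (hs : ∀ a b : M, (∀ n, φ n a = φ n b) → a = b) :
    Function.Injective (Phi' φ : (X → M) → (X × ℕ → ℝ)) := by
  intro f g h
  funext x
  exact hs _ _ fun n => congrFun h (x, n)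

theorem phi_mem_cont (hφ : ∀ n, Continuous (φ n)) {f : X → M} (hf : Continuous f) :
    Continuous (Phi' φ f) := by
  rw [continuous_prod_of_discrete_right]
  intro n
  exact (hφ n).comp hf

theorem t2_of_sep (hφ : ∀ n, Continuous (φ n))
    (hs : ∀ a b : M, (∀ n, φ n a = φ n b) → a = b) : T2Space M := by
  have hc : Continuous (fun a : M => fun n => φ n a) := continuous_pi hφ
  exact T2Space.of_injective_continuous (fun a b h => hs a b fun n => congrFun h n) hc

/-- A compact set of functions is homeomorphic to the attached set of functions. -/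
theorem phi_embedding (hφ : ∀ n, Continuous (φ n))
    (hs : ∀ a b : M, (∀ n, φ n a = φ n b) → a = b) {K : Set (X → M)} (hK : IsCompact K) :
    IsEmbedding (fun f : K => (⟨Phi' φ f.1, f.1, f.2, rfl⟩ : Phi' φ '' K)) := by
  have : CompactSpace K := isCompact_iff_compactSpace.1 hK
  refine (Continuous.isClosedEmbedding ?_ ?_).isEmbedding
  · exact Continuous.subtype_mk ((phi_cont φ hφ).comp continuous_subtype_val) _
  · intro f g h
    exact Subtype.ext (phi_inj φ hs (congrArg Subtype.val h))

end

theorem separable_closure {T : Type} [TopologicalSpace T] {C : Set T} (hC : C.Countable) :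
    TopologicalSpace.SeparableSpace (closure C) := by
  refine ⟨⟨{x | x.1 ∈ C}, hC.preimage Subtype.val_injective, ?_⟩⟩
  rw [Subtype.dense_iff]
  refine closure_minimal ?_ isClosed_closure |>.trans le_rfl
  intro x hx
  exact subset_closure ⟨⟨x, subset_closure hx⟩, hx, rfl⟩

/-- **Main theorem.** Under PFA, compact sets of continuous functions from a `T₁` space of
countable extent to a countably separated space are Fréchet-Urysohn, and the closures of their
countable subsets are metrizable. -/
theorem main (hPFA : PFA) {X M : Type} [TopologicalSpace X] [T1Space X] [TopologicalSpace M]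
    (hX : CountableExtent X) (hM : CountablySeparated M) (K : Set (X → M)) (hK : IsCompact K)
    (hKc : ∀ f ∈ K, Continuous f) :
    FrechetUrysohnSpace K ∧ ∀ C ⊆ K, C.Countable →
      TopologicalSpace.MetrizableSpace (closure C) := by
  obtain ⟨φ, hφ, hs⟩ := hM
  have : T2Space M := t2_of_sep φ hφ hs
  have hY : CountableExtent (X × ℕ) := extent_prod hX
  have hcont : ∀ g ∈ Phi' φ '' K, Continuous g := by
    rintro _ ⟨f, hf, rfl⟩
    exact phi_mem_cont φ hφ (hKc f hf)
  constructor
  · have := pfa_frechet hPFA hY (Phi' φ '' K) (hK.image (phi_cont φ hφ)) hcont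
    exact (phi_embedding φ hφ hs hK).isInducing.frechetUrysohnSpace
  · intro C hC hCc
    have hsub : closure C ⊆ K := closure_minimal hC hK.isClosed
    have hcC : IsCompact (closure C) := hK.of_isClosed_subset isClosed_closure hsub
    have hcont' : ∀ g ∈ Phi' φ '' closure C, Continuous g := fun g hg =>
      hcont g (image_mono hsub hg)
    have hcomp := hcC.image (phi_cont φ hφ)
    have hsepC : TopologicalSpace.SeparableSpace (closure C) := separable_closure hCc
    have hsep : TopologicalSpace.SeparableSpace (Phi' φ '' closure C) := by
      have hcm : Continuous (fun f : closure C =>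
          (⟨Phi' φ f.1, f.1, f.2, rfl⟩ : Phi' φ '' closure C)) :=
        Continuous.subtype_mk ((phi_cont φ hφ).comp continuous_subtype_val) _
      refine DenseRange.separableSpace (Function.Surjective.denseRange ?_) hcm
      rintro ⟨_, f, hf, rfl⟩
      exact ⟨⟨f, hf⟩, rfl⟩
    have := metrizable (J8.MA1_of_PFA hPFA) hY (Phi' φ '' closure C) hcomp hcont'
      (pfa_tight hPFA hY _ hcomp hcont') hsep
    exact (phi_embedding φ hφ hs hcC).metrizableSpace

/-- Separable metrizable spaces are countably separated. -/
theorem separated_of_metrizable (M : Type) [TopologicalSpace M]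
    [TopologicalSpace.MetrizableSpace M] [TopologicalSpace.SeparableSpace M] :
    CountablySeparated M := by
  rcases isEmpty_or_nonempty M with hE | hE
  · exact ⟨fun _ _ => 0, fun _ => continuous_const, fun a => hE.elim a⟩
  · letI := TopologicalSpace.metrizableSpaceMetric M
    refine ⟨fun n a => dist a (TopologicalSpace.denseSeq M n), fun n => by fun_prop,
      fun a b h => ?_⟩
    by_contra hab
    have hd : 0 < dist a b := dist_pos.2 hab
    obtain ⟨n, hn⟩ := (TopologicalSpace.denseRange_denseSeq M).exists_dist_lt a
      (show (0 : ℝ) < dist a b / 2 by linarith)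
    have h1 := h n
    have h2 := dist_triangle_right a b (TopologicalSpace.denseSeq M n)
    linarith

theorem ctight_homeo {T S : Type} [TopologicalSpace T] [TopologicalSpace S] (e : T ≃ₜ S)
    (h : CTight T) : CTight S := by
  intro A x hx
  have hx' : e.symm x ∈ closure (e ⁻¹' A) := by
    rw [← e.preimage_closure]
    simpa using hx
  obtain ⟨B, hB, hBc, hxB⟩ := h _ _ hx'
  refine ⟨e '' B, ?_, hBc.image e, ?_⟩
  · rintro _ ⟨b, hb, rfl⟩
    exact hB hb
  · rw [← e.image_closure]
    exact ⟨_, hxB, by simp⟩

/-- Under MA + not CH, a compact set of continuous functions is Fréchet-Urysohn iff it is countably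
tight. -/
theorem main_ma (hMA : MA1) {X M : Type} [TopologicalSpace X] [T1Space X] [TopologicalSpace M]
    (hX : CountableExtent X) (hM : CountablySeparated M) (K : Set (X → M)) (hK : IsCompact K)
    (hKc : ∀ f ∈ K, Continuous f) : FrechetUrysohnSpace K ↔ CTight K := by
  refine ⟨fun h => ctight_of_sequential, fun h => ?_⟩
  obtain ⟨φ, hφ, hs⟩ := hM
  have : T2Space M := t2_of_sep φ hφ hs
  have hY : CountableExtent (X × ℕ) := extent_prod hX
  have hcont : ∀ g ∈ Phi' φ '' K, Continuous g := by
    rintro _ ⟨f, hf, rfl⟩
    exact phi_mem_cont φ hφ (hKc f hf)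
  have hemb := phi_embedding φ hφ hs hK
  have hsurj : Function.Surjective
      (fun f : K => (⟨Phi' φ f.1, f.1, f.2, rfl⟩ : Phi' φ '' K)) := by
    rintro ⟨_, f, hf, rfl⟩
    exact ⟨⟨f, hf⟩, rfl⟩
  have hT : CTight (Phi' φ '' K) := ctight_homeo (hemb.toHomeomorphOfSurjective hsurj) h
  have := (ma_frechet hMA hY (Phi' φ '' K) (hK.image (phi_cont φ hφ)) hcont).2.1 hT
  exact hemb.isInducing.frechetUrysohnSpace

end Pool.Agent.U517.FU
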